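import Pool.Agent.Helper42.PL.Cls
import Pool.Agent.Helper58.PSL.Cover

/-!
# Project PL, part B: subgroups of index prime to `p`
-/

open Matrix MulAction
open scoped MatrixGroups Pointwise

namespace Pool.Agent.Helper42.PL

open Pool.Agent.Helper58.PSL

variable {F : Type} [Field F] {p : ℕ} [Fact p.Prime]

/-- the upper unipotent subgroup -/
def UU (F : Type) [Field F] : Subgroup SL(2, F) where
  carrier := Set.range xs
  mul_mem' := by
    rintro _ _ ⟨a, rfl⟩ ⟨b, rfl⟩
    exact ⟨a + b, rk1_sl.addx a b⟩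
  one_mem' := ⟨0, rk1_sl.x0⟩
  inv_mem' := by
    rintro _ ⟨a, rfl⟩
    exact ⟨-a, rk1_sl.xneg a⟩

lemma xs_pow (a : F) (n : ℕ) : (xs a) ^ n = xs (n * a) := by
  induction n with
  | zero => rw [pow_zero, Nat.cast_zero, zero_mul, rk1_sl.x0]
  | succ n ih => rw [pow_succ, ih, ← rk1_sl.addx, Nat.cast_succ, add_mul, one_mul]

lemma UU_pgroup [CharP F p] : IsPGroup p (UU F) := by
  rintro ⟨_, a, rfl⟩
  refine ⟨1, ?_⟩
  apply Subtype.ext
  change (xs a) ^ p ^ 1 = 1
  rw [pow_one, xs_pow, CharP.cast_eq_zero, zero_mul, rk1_sl.x0]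

lemma eq_top_of_mem (L : Subgroup SL(2, F)) (hU : ∀ a, xs a ∈ L) (g : SL(2, F)) (hg : g ∈ L)
    (h0 : g 1 0 ≠ 0) : L = ⊤ := by
  apply gen_sl L hU
  intro s
  have hdet : g 0 0 * g 1 1 - g 0 1 * g 1 0 = 1 := by
    have := g.det_coe
    rwa [Matrix.det_fin_two] at this
  set g' : SL(2, F) := xs (-(g 0 0) / g 1 0) * g with hg'
  have h1 : g' ∈ L := L.mul_mem (hU _) hg
  have h2 : g' * xs (-s / (g 1 0) ^ 2) * g'⁻¹ ∈ L := L.mul_mem (L.mul_mem h1 (hU _)) (L.inv_mem h1)
  have h00 : g' 0 0 = 0 := by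
    rw [hg']
    simp only [Matrix.SpecialLinearGroup.coe_mul, xs_coe, Matrix.mul_apply, Fin.sum_univ_two]
    simp
    field_simp
    ring
  have h10 : g' 1 0 = g 1 0 := by
    rw [hg']
    simp only [Matrix.SpecialLinearGroup.coe_mul, xs_coe, Matrix.mul_apply, Fin.sum_univ_two]
    simp
  have hdet' : g' 0 0 * g' 1 1 - g' 0 1 * g' 1 0 = 1 := by
    have := g'.det_coe
    rwa [Matrix.det_fin_two] at this
  have h3 : g' * xs (-s / (g 1 0) ^ 2) = ys s * g' := by
    apply Subtype.ext
    rw [h00, h10] at hdet'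
    ext i j
    fin_cases i <;> fin_cases j <;>
      simp [Matrix.SpecialLinearGroup.coe_mul, xs_coe, ys_coe, Matrix.mul_apply,
        Fin.sum_univ_two, h00, h10]
    field_simp
    linear_combination s * hdet'
  rw [h3, mul_inv_cancel_right] at h2
  exact h2

lemma borel_cls [Finite F] (L : Subgroup SL(2, F)) (hL : ∀ g ∈ L, g 1 0 = 0) : Cls p L := by
  let f₀ : L →* F :=
    { toFun := fun g => g.1 0 0
      map_one' := by simp
      map_mul' := fun a b => by
        change (a.1 * b.1) 0 0 = _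
        rw [Matrix.SpecialLinearGroup.coe_mul, Matrix.mul_apply, Fin.sum_univ_two, hL b.1 b.2,
          mul_zero, add_zero] }
  let f : L →* Fˣ := f₀.toHomUnits
  have hf : ∀ g, ((f g : Fˣ) : F) = g.1 0 0 := fun g => rfl
  refine Cls.extn f.rangeRestrict f.rangeRestrict_surjective ?_ ?_
  · apply Cls.of_comm
    have key : ∀ a : f.rangeRestrict.ker, a.1.1 = xs (a.1.1 0 1) := by
      intro a
      have h1 : f a.1 = 1 := congrArg Subtype.val (MonoidHom.mem_ker.1 a.2)
      have h2 : a.1.1 0 0 = 1 := by rw [← hf, h1, Units.val_one]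
      have h3 := hL a.1.1 a.1.2
      have hdet : a.1.1 0 0 * a.1.1 1 1 - a.1.1 0 1 * a.1.1 1 0 = 1 := by
        have := a.1.1.det_coe
        rwa [Matrix.det_fin_two] at this
      rw [h2, h3, one_mul, mul_zero, sub_zero] at hdet
      apply Subtype.ext
      rw [xs_coe]
      ext i j
      fin_cases i <;> fin_cases j
      · exact h2
      · rfl
      · exact h3
      · exact hdet
    intro a b
    apply Subtype.ext
    apply Subtype.ext
    change a.1.1 * b.1.1 = b.1.1 * a.1.1
    rw [key a, key b, ← rk1_sl.addx, ← rk1_sl.addx, add_comm]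
  · apply Cls.of_comm
    intro a b
    exact Subtype.ext (mul_comm _ _)

lemma sl_cls [Finite F] [CharP F p] (hF : 3 < Nat.card F) : Cls p SL(2, F) := by
  refine Cls.extn (QuotientGroup.mk' (Subgroup.center SL(2, F))) (QuotientGroup.mk'_surjective _)
    ?_ (Cls.of_fac (Or.inr (Or.inr ⟨F, inferInstance, inferInstance, inferInstance, hF,
      ⟨MulEquiv.refl _⟩⟩)))
  rw [QuotientGroup.ker_mk']
  apply Cls.of_comm
  intro a b
  apply Subtype.ext
  exact (Subgroup.mem_center_iff.1 a.2 (b : SL(2, F))).symm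

lemma sl_idx [Finite F] [CharP F p] (hF : 3 < Nat.card F) (L : Subgroup SL(2, F))
    (h : ¬ p ∣ L.index) : Cls p L := by
  obtain ⟨x, hx⟩ := (UU_pgroup (F := F) (p := p)).nonempty_fixed_point_of_prime_not_dvd_card
    (SL(2, F) ⧸ L) h
  obtain ⟨g, rfl⟩ := QuotientGroup.mk_surjective x
  have hU : ∀ a, xs a ∈ L.map (MulAut.conj g).toMonoidHom := by
    intro a
    have h1 := hx ⟨xs a, a, rfl⟩
    have h2 : ((xs a * g : SL(2, F)) : SL(2, F) ⧸ L) = (g : SL(2, F) ⧸ L) := h1
    have h3 := QuotientGroup.eq.1 h2.symm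
    refine ⟨g⁻¹ * (xs a * g), h3, ?_⟩
    change g * (g⁻¹ * (xs a * g)) * g⁻¹ = xs a
    group
  have e : L ≃* L.map (MulAut.conj g).toMonoidHom :=
    L.equivMapOfInjective _ (MulAut.conj g).injective
  by_cases hall : ∀ y ∈ L.map (MulAut.conj g).toMonoidHom, y 1 0 = 0
  · exact (borel_cls _ hall).congr e.symm
  · push Not at hall
    obtain ⟨y, hy, hy0⟩ := hall
    have htop := eq_top_of_mem _ hU y hy hy0
    have h4 : Cls p (L.map (MulAut.conj g).toMonoidHom) := by
      rw [htop]
      exact (sl_cls hF).congr Subgroup.topEquiv.symm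
    exact h4.congr e.symm

lemma fac_idx {G : Type} [Group G] [Finite G] (h : Fac p G) (H : Subgroup G)
    (hH : ¬ p ∣ H.index) : Cls p H := by
  rcases h with h | h | ⟨k, i1, i2, i3, hk, ⟨e⟩⟩
  · apply Cls.of_comm
    intro a b
    exact Subtype.ext (h a b)
  · apply Cls.of_fac
    right; left
    exact cyc_of_inj H.subtype H.subtype_injective h
  · let f : SL(2, k) →* G := e.symm.toMonoidHom.comp (QuotientGroup.mk' _)
    have hf : Function.Surjective f := e.symm.surjective.comp (QuotientGroup.mk'_surjective _)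
    have h1 : Cls p (H.comap f) := by
      apply sl_idx hk
      rw [Subgroup.index_comap_of_surjective H hf]
      exact hH
    exact h1.surj (f.subgroupComap H) (f.subgroupComap_surjective_of_surjective H hf)

lemma relIndex_sup_eq {G : Type} [Group G] [Finite G] (H N : Subgroup G) [N.Normal] :
    H.relIndex (H ⊔ N) = H.relIndex N := by
  have e1 := Subgroup.relIndex_mul_relIndex ⊥ N (H ⊔ N) bot_le le_sup_right
  have e2 := Subgroup.relIndex_mul_relIndex ⊥ H (H ⊔ N) bot_le le_sup_left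
  have e3 := Subgroup.relIndex_mul_relIndex ⊥ (H ⊓ N) H bot_le inf_le_left
  have e4 := Subgroup.relIndex_mul_relIndex ⊥ (H ⊓ N) N bot_le inf_le_right
  rw [Subgroup.inf_relIndex_right] at e4
  rw [Subgroup.inf_relIndex_left] at e3
  rw [Subgroup.relIndex_sup_right] at e1
  simp only [Subgroup.relIndex_bot_left] at e1 e2 e3 e4
  have p1 : 0 < Nat.card (H ⊓ N : Subgroup G) := Nat.card_pos
  have p2 : 0 < Nat.card H := Nat.card_pos
  have h : (Nat.card (H ⊓ N : Subgroup G) * Nat.card H) * H.relIndex (H ⊔ N) =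
      (Nat.card (H ⊓ N : Subgroup G) * Nat.card H) * H.relIndex N := by
    calc (Nat.card (H ⊓ N : Subgroup G) * Nat.card H) * H.relIndex (H ⊔ N)
        = Nat.card (H ⊓ N : Subgroup G) * (Nat.card H * H.relIndex (H ⊔ N)) := by ring
      _ = Nat.card (H ⊓ N : Subgroup G) * (Nat.card N * N.relIndex H) := by rw [e2, e1]
      _ = Nat.card N * (Nat.card (H ⊓ N : Subgroup G) * N.relIndex H) := by ring
      _ = (Nat.card (H ⊓ N : Subgroup G) * H.relIndex N) *
          (Nat.card (H ⊓ N : Subgroup G) * N.relIndex H) := by rw [e4]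
      _ = (Nat.card (H ⊓ N : Subgroup G) * H.relIndex N) * Nat.card H := by rw [e3]
      _ = _ := by ring
  exact Nat.eq_of_mul_eq_mul_left (Nat.mul_pos p1 p2) h

/-- subgroups of index prime to `p` -/
theorem Cls.idx {G : Type} [Group G] [Finite G] (h : Cls p G) (H : Subgroup G)
    (hH : ¬ p ∣ H.index) : Cls p H := by
  refine Cls.sub_ind (fun G _ H => ¬ p ∣ H.index) ?_ ?_ ?_ h inferInstance H hH
  · intro G _ _ N _ H hH hd
    apply hH
    refine hd.trans ?_
    have h1 : H.relIndex (H ⊔ N) = H.relIndex N := relIndex_sup_eq H N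
    change H.relIndex N ∣ _
    rw [← h1]
    exact Subgroup.relIndex_dvd_index_of_le le_sup_left
  · intro G _ _ N _ H hH hd
    exact hH (hd.trans (Subgroup.index_map_dvd H (QuotientGroup.mk'_surjective N)))
  · intro G _ _ hF H hH
    exact fac_idx hF H hH

end Pool.Agent.Helper42.PL
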