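import Pool.Agent.Helper42.PL.Red
import Pool.Agent.Helper42.PL.PIdx
import Pool.Agent.Helper24.S7.Final
import Pool.Agent.Helper42.IR.F.HII
import Pool.Agent.Helper42.CY.FMain

/-!
# Project PL, part B: the final theorem
-/

open Matrix
open scoped MatrixGroups Pointwise IsMulCommutative

namespace Pool.Agent.Helper42.PL

open Pool.Agent.Helper42.INC Pool.Agent.Helper7.MK Pool.Agent.Helper24.S7

theorem cls_class (p : ℕ) [Fact p.Prime] : PClass p (fun G [Group G] => Cls p G) := by
  refine ⟨?_, ?_⟩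
  · intro X Y _ _ _ _ f hf hi hY
    exact Cls.central f hf (hY.idx f.range hi)
  · intro X Y _ _ _ _ f hf hX
    exact hX.surj f hf

theorem stage3P {G : Type} [Group G] [Finite G] {p : ℕ} [Fact p.Prime] (K : Subgroup G)
    [K.Normal] (hperf : ⁅K, K⁆ = K) (hne : K ≠ ⊥)
    (hmin : ∀ N : Subgroup G, N.Normal → N ≤ K → N ≠ K → N ≤ Subgroup.center G)
    (hz : ¬ p ∣ Nat.card (Subgroup.center G)) (hpK : p ∣ Nat.card K)
    (hgood : ∀ S : Subgroup G, S ≤ K → (∀ k ∈ K, cj k S = S) → ⁅S, S⁆ = S →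
      IsSimpleGroup (S ⧸ Subgroup.center S) →
      ¬ p ∣ Nat.card (Subgroup.center S) → p ∣ Nat.card S → Good p S) (P : Sylow p G) :
    ∃ L : Subgroup G, L ≠ ⊤ ∧ Subgroup.normalizer (P : Set G) ≤ L ∧
      ∀ s : ZMod p, s ≠ 0 → cnt p G s = cnt p L s := by
  obtain ⟨S, h1, h2, h3, h4⟩ := exists_min K hperf hne
  have hgen := gen_of_min K hmin S h1 h3
  have hp := perf_of_min K hperf hne S h1 h2 hgen h4
  have hc : Comp K S := ⟨h1, h2, hp, hgen, comm_of_min K S h1 h2 hp h4⟩
  have hS : S ≠ ⊥ := by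
    rintro rfl
    exact h3 bot_le
  exact comp_step K S hc (hgood S h1 h2 hp (simple_of_min K S hc hS h4)
    (not_dvd_center K S hc hperf hne hmin hz) (dvd_card K S hc hpK)) P

theorem cls_comp {p : ℕ} [Fact p.Prime] {G : Type} [Group G] [Finite G] (hG : Cls p G)
    (K : Subgroup G) (hK : K.Normal) (S : Subgroup G) (hS : S ≤ K) (h0 : ∀ k ∈ K, cj k S = S) :
    Cls p (S ⧸ Subgroup.center S) := by
  have h1 : Cls p K := hG.normal K hK
  have hn : (S.subgroupOf K).Normal := by
    refine ⟨fun n hn k => ?_⟩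
    rw [Subgroup.mem_subgroupOf] at hn ⊢
    have h2 := h0 k k.2
    rw [← h2, mem_cj]
    have h3 : (k : G)⁻¹ * ((k * n * k⁻¹ : K) : G) * k = n := by
      push_cast
      group
    rw [h3]
    exact hn
  have h4 : Cls p (S.subgroupOf K) := h1.normal _ hn
  have h5 : Cls p S := h4.congr (Subgroup.subgroupOfEquivOfLe hS)
  exact h5.surj (QuotientGroup.mk' _) (QuotientGroup.mk'_surjective _)

theorem good_compP {p : ℕ} [Fact p.Prime]
    (hPG : ∀ (k : Type) [Field k] [Finite k] [CharP k p], 3 < Nat.card k → PGood p PSL(2, k))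
    {S : Type} [Group S] [Finite S] (hC : Cls p (S ⧸ Subgroup.center S))
    (hperf : ⁅(⊤ : Subgroup S), (⊤ : Subgroup S)⁆ = ⊤)
    (h2 : IsSimpleGroup (S ⧸ Subgroup.center S)) (h3 : ¬ p ∣ Nat.card (Subgroup.center S))
    (h4 : p ∣ Nat.card S) : Good p S := by
  by_cases hp2 : p ^ 2 ∣ Nat.card S
  · have hab : ¬ ∀ a b : S ⧸ Subgroup.center S, a * b = b * a := by
      intro hc
      have hle : ⁅(⊤ : Subgroup S), (⊤ : Subgroup S)⁆ ≤ Subgroup.center S := by
        rw [Subgroup.commutator_le]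
        intro a _ b _
        rw [← QuotientGroup.eq_one_iff, commutatorElement_def]
        change (a : S ⧸ Subgroup.center S) * b * (a : S ⧸ Subgroup.center S)⁻¹ *
          (b : S ⧸ Subgroup.center S)⁻¹ = 1
        rw [hc (a : S ⧸ Subgroup.center S) b]
        group
      rw [hperf, top_le_iff] at hle
      apply h3
      rw [hle, Subgroup.card_top]
      exact h4
    have hdvd : p ^ 2 ∣ Nat.card (S ⧸ Subgroup.center S) := by
      have h5 := Subgroup.card_eq_card_quotient_mul_card_subgroup (Subgroup.center S)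
      rw [h5] at hp2
      have h6 : Nat.Coprime (p ^ 2) (Nat.card (Subgroup.center S)) :=
        Nat.Coprime.pow_left 2 (((Fact.out : p.Prime).coprime_iff_not_dvd).2 h3)
      exact h6.dvd_of_dvd_mul_right hp2
    rcases hC.simple h2 with h | h | ⟨k, i1, i2, i3, hk, ⟨e⟩⟩
    · exact absurd h hab
    · exact Pool.Agent.Helper42.CY.pgood_of_cyclic (S ⧸ Subgroup.center S) h hdvd S hperf
        ⟨MulEquiv.refl _⟩ h3
    · exact hPG k hk S hperf ⟨e⟩ h3
  · exact Pool.Agent.Helper42.IR.F.hII S hperf h4 hp2 h3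

/-- **Part B of project PL** -/
theorem final_of_cls {p : ℕ} [Fact p.Prime]
    (hPG : ∀ (k : Type) [Field k] [Finite k] [CharP k p], 3 < Nat.card k → PGood p PSL(2, k))
    (G : Type) [Group G] [Finite G] (hG : Cls p G) : McKayCongr p G := by
  refine induct (fun G [Group G] => Cls p G → McKayCongr p G) ?_ G hG
  intro G _ _ ih hG
  by_contra hn
  have hcore : Core p G := one_stepP (cls_class p) G hG (fun X _ _ hX hs => ih X hs hX) hn
  obtain ⟨K, hKn, hperf, hne, hmin, hpK⟩ := exists_minK hcore hn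
  obtain ⟨P⟩ : Nonempty (Sylow p G) := inferInstance
  haveI := hKn
  obtain ⟨L, hL, hNL, hcnt⟩ := stage3P K hperf hne hmin hcore.coprime hpK
    (fun S hSK h0 h1 h2 h3 h4 => good_compP hPG (cls_comp hG K hKn S hSK h0) (by
      apply Subgroup.map_injective S.subtype_injective
      have h5 := Subgroup.map_subtype_commutator S
      rw [_root_.commutator_def] at h5
      rw [h5, h1, ← MonoidHom.range_eq_map, Subgroup.range_subtype]) h2 h3 h4) P
  have hPL : (P : Subgroup G) ≤ L := Subgroup.le_normalizer.trans hNL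
  have hLc : Cls p L := by
    apply hG.idx L
    intro hd
    exact P.not_dvd_index (hd.trans (Subgroup.index_dvd_of_le hPL))
  have hLM : McKayCongr p L := ih L (smaller_sub L hL) hLc
  apply hn
  rw [mcKay_iff P]
  intro s hs
  rw [hcnt s hs, (mcKay_iff (P.subtype hPL)).1 hLM s hs]
  exact cnt_congr (normSubEquiv P L hPL hNL) s

lemma cls_series {p : ℕ} [Fact p.Prime] {G : Type} [Group G] [Finite G] (H : ℕ → Subgroup G)
    (h0 : H 0 = ⊥) (n : ℕ) (hs : ∀ i < n, H i ≤ H (i + 1) ∧
      ∃ _ : ((H i).subgroupOf (H (i + 1))).Normal,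
        Fac p (H (i + 1) ⧸ (H i).subgroupOf (H (i + 1)))) :
    ∀ i ≤ n, Cls p (H i) := by
  intro i
  induction i with
  | zero =>
    intro _
    have : Subsingleton (H 0) := by
      rw [h0]
      infer_instance
    exact Cls.triv _
  | succ i ih =>
    intro hi
    obtain ⟨h1, h2, h3⟩ := hs i hi
    refine Cls.ext _ ((H i).subgroupOf (H (i + 1))) ?_ h3
    exact (ih (Nat.le_of_succ_le hi)).congr (Subgroup.subgroupOfEquivOfLe h1).symm

/-- the final theorem of part B for groups with a subnormal series -/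
theorem final {p : ℕ} [Fact p.Prime]
    (hPG : ∀ (k : Type) [Field k] [Finite k] [CharP k p], 3 < Nat.card k → PGood p PSL(2, k))
    (G : Type) [Group G] [Finite G] (n : ℕ) (H : ℕ → Subgroup G) (h0 : H 0 = ⊥) (h1 : H n = ⊤)
    (hs : ∀ i < n, H i ≤ H (i + 1) ∧ ∃ _ : ((H i).subgroupOf (H (i + 1))).Normal,
      Fac p (H (i + 1) ⧸ (H i).subgroupOf (H (i + 1)))) :
    McKayCongr p G := by
  have h2 := cls_series H h0 n hs n le_rfl
  rw [h1] at h2
  exact final_of_cls hPG G (h2.congr Subgroup.topEquiv)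

end Pool.Agent.Helper42.PL
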