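import Pool.Agent.Helper42.INC.Basic
import Mathlib

/-!
# Project PL, part B: the class of groups, closure properties
-/

open Matrix
open scoped MatrixGroups Pointwise

namespace Pool.Agent.Helper42.PL

/-- the admissible factors: abelian groups, groups with cyclic Sylow `p`-subgroups, and the groups
`PSL(2, k)` for finite fields `k` of characteristic `p` with more than three elements -/
def Fac (p : ℕ) (F : Type) [Group F] : Prop :=
  (∀ a b : F, a * b = b * a) ∨ (∀ P : Sylow p F, IsCyclic P) ∨
    ∃ (k : Type) (_ : Field k) (_ : Finite k) (_ : CharP k p), 3 < Nat.card k ∧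
      Nonempty (F ≃* PSL(2, k))

/-- the groups with a subnormal series with admissible factors -/
inductive Cls (p : ℕ) : (G : Type) → [Group G] → Prop
  | triv (G : Type) [Group G] [Subsingleton G] : Cls p G
  | ext (G : Type) [Group G] (N : Subgroup G) [N.Normal]
      (hN : Cls p N) (hQ : Fac p (G ⧸ N)) : Cls p G

variable {p : ℕ}

lemma cyc_of_surj [Fact p.Prime] {X Y : Type} [Group X] [Group Y] [Finite X] (f : X →* Y)
    (hf : Function.Surjective f) (h : ∀ P : Sylow p X, IsCyclic P) : ∀ P : Sylow p Y, IsCyclic P := by
  intro P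
  have : Finite Y := Finite.of_surjective f hf
  obtain ⟨Q, rfl⟩ := Sylow.mapSurjective_surjective hf p P
  have h1 := h Q
  have h2 : Function.Surjective (f.subgroupMap (Q : Subgroup X)) := f.subgroupMap_surjective _
  exact isCyclic_of_surjective (f.subgroupMap (Q : Subgroup X)) h2

lemma cyc_of_inj [Fact p.Prime] {X Y : Type} [Group X] [Group Y] [Finite Y] (f : X →* Y)
    (hf : Function.Injective f) (h : ∀ P : Sylow p Y, IsCyclic P) : ∀ P : Sylow p X, IsCyclic P := by
  intro P
  obtain ⟨Q, hQ⟩ := (P.isPGroup'.map f).exists_le_sylow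
  have h1 := h Q
  let g : P →* Q := (f.comp (P : Subgroup X).subtype).codRestrict (Q : Subgroup Y)
    (fun x => hQ ⟨x.1, x.2, rfl⟩)
  have hg : Function.Injective g := by
    intro a b hab
    apply Subtype.ext
    apply hf
    exact congrArg Subtype.val hab
  exact isCyclic_of_injective g hg

/-- `PSL(2, k)` is simple -/
lemma psl_simple (k : Type) [Field k] [Finite k] (hk : 3 < Nat.card k) : IsSimpleGroup PSL(2, k) :=
  Matrix.ProjectiveSpecialLinearGroup.rank_two_simple (by omega)

lemma Fac.surj [Fact p.Prime] {X Y : Type} [Group X] [Group Y] [Finite X] (f : X →* Y)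
    (hf : Function.Surjective f) (h : Fac p X) : Fac p Y := by
  rcases h with h | h | ⟨k, h1, h2, h3, h4, ⟨e⟩⟩
  · left
    intro a b
    obtain ⟨a, rfl⟩ := hf a
    obtain ⟨b, rfl⟩ := hf b
    rw [← map_mul, h, map_mul]
  · right; left
    exact cyc_of_surj f hf h
  · have hs : IsSimpleGroup PSL(2, k) := psl_simple k h4
    have hX : IsSimpleGroup X := by
      have : Nontrivial X := e.toEquiv.nontrivial
      exact IsSimpleGroup.isSimpleGroup_of_surjective e.symm.toMonoidHom e.symm.surjective
    rcases hX.eq_bot_or_eq_top_of_normal f.ker inferInstance with hk | hk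
    · right; right
      refine ⟨k, h1, h2, h3, h4, ⟨?_⟩⟩
      exact (MulEquiv.ofBijective f ⟨(MonoidHom.ker_eq_bot_iff f).1 hk, hf⟩).symm.trans e
    · left
      intro a b
      obtain ⟨a, rfl⟩ := hf a
      obtain ⟨b, rfl⟩ := hf b
      have ha : f a = 1 := by rw [← MonoidHom.mem_ker, hk]; trivial
      have hb : f b = 1 := by rw [← MonoidHom.mem_ker, hk]; trivial
      rw [ha, hb]

lemma Fac.congr [Fact p.Prime] {X Y : Type} [Group X] [Group Y] [Finite X] (e : X ≃* Y)
    (h : Fac p X) : Fac p Y := h.surj e.toMonoidHom e.surjective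

lemma Cls.surj_aux [Fact p.Prime] {X : Type} [Group X] (h : Cls p X) : Finite X →
    ∀ (Y : Type) [Group Y] (f : X →* Y), Function.Surjective f → Cls p Y := by
  induction h with
  | triv X =>
    intro _ Y _ f hf
    have : Subsingleton Y := hf.subsingleton
    exact Cls.triv Y
  | ext X N hN hQ ih =>
    intro hfin Y _ f hf
    have hN' : (N.map f).Normal := Subgroup.Normal.map inferInstance f hf
    have h1 : Cls p (N.map f) := ih inferInstance _ (f.subgroupMap N) (f.subgroupMap_surjective N)
    refine Cls.ext Y (N.map f) h1 ?_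
    refine hQ.surj (QuotientGroup.map N (N.map f) f (Subgroup.le_comap_map f N)) ?_
    intro y
    obtain ⟨y, rfl⟩ := QuotientGroup.mk'_surjective _ y
    obtain ⟨x, rfl⟩ := hf y
    exact ⟨QuotientGroup.mk' N x, rfl⟩

theorem Cls.surj [Fact p.Prime] {X Y : Type} [Group X] [Group Y] [Finite X] (f : X →* Y)
    (hf : Function.Surjective f) (h : Cls p X) : Cls p Y := h.surj_aux inferInstance Y f hf

theorem Cls.congr [Fact p.Prime] {X Y : Type} [Group X] [Group Y] [Finite X] (e : X ≃* Y)
    (h : Cls p X) : Cls p Y := h.surj e.toMonoidHom e.surjective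

lemma Cls.of_fac [Fact p.Prime] {X : Type} [Group X] [Finite X] (h : Fac p X) : Cls p X := by
  refine Cls.ext X ⊥ (Cls.triv _) ?_
  exact h.congr (QuotientGroup.quotientBot).symm

lemma Cls.of_comm [Fact p.Prime] {X : Type} [Group X] [Finite X] (h : ∀ a b : X, a * b = b * a) :
    Cls p X := Cls.of_fac (Or.inl h)

lemma Cls.extn_aux [Fact p.Prime] {Q : Type} [Group Q] (h : Cls p Q) :
    ∀ (X : Type) [Group X] [Finite X] (f : X →* Q), Function.Surjective f → Cls p f.ker →
      Cls p X := by
  induction h with
  | triv Q =>
    intro X _ _ f hf hk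
    have h1 : f.ker = ⊤ := by
      rw [eq_top_iff]
      intro x _
      exact Subsingleton.elim _ _
    rw [h1] at hk
    exact hk.congr Subgroup.topEquiv
  | ext Q M hM hQ ih =>
    intro X _ _ f hf hk
    have h1 : Cls p (M.comap f) := by
      refine ih (M.comap f) (f.subgroupComap M) (f.subgroupComap_surjective_of_surjective M hf) ?_
      have e : f.ker ≃* (f.subgroupComap M).ker :=
        { toFun := fun x => ⟨⟨x.1, by
            rw [Subgroup.mem_comap, MonoidHom.mem_ker.1 x.2]; exact M.one_mem⟩, by
            rw [MonoidHom.mem_ker]; exact Subtype.ext (MonoidHom.mem_ker.1 x.2)⟩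
          invFun := fun x => ⟨x.1.1, by
            rw [MonoidHom.mem_ker]; exact congrArg Subtype.val (MonoidHom.mem_ker.1 x.2)⟩
          left_inv := fun x => rfl
          right_inv := fun x => rfl
          map_mul' := fun x y => rfl }
      exact hk.congr e
    have hfinQ : Finite Q := Finite.of_surjective f hf
    refine Cls.ext X (M.comap f) h1 ?_
    let g : X →* Q ⧸ M := (QuotientGroup.mk' M).comp f
    have hg : Function.Surjective g := (QuotientGroup.mk'_surjective M).comp hf
    have hker : g.ker = M.comap f := by
      ext x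
      rw [MonoidHom.mem_ker, Subgroup.mem_comap]
      exact QuotientGroup.eq_one_iff (f x)
    have e2 : X ⧸ M.comap f ≃* Q ⧸ M :=
      (QuotientGroup.quotientMulEquivOfEq hker.symm).trans
        (QuotientGroup.quotientKerEquivOfSurjective g hg)
    exact hQ.congr e2.symm

theorem Cls.extn [Fact p.Prime] {X Q : Type} [Group X] [Group Q] [Finite X] (f : X →* Q)
    (hf : Function.Surjective f) (hk : Cls p f.ker) (h : Cls p Q) : Cls p X :=
  h.extn_aux X f hf hk

/-- a relation between groups and subgroups which is inherited by normal subgroups and quotients -/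
lemma Cls.sub_ind [Fact p.Prime] (R : ∀ (G : Type) [Group G], Subgroup G → Prop)
    (h1 : ∀ (G : Type) [Group G] [Finite G] (N : Subgroup G) [N.Normal] (H : Subgroup G),
      R G H → R N (H.subgroupOf N))
    (h2 : ∀ (G : Type) [Group G] [Finite G] (N : Subgroup G) [N.Normal] (H : Subgroup G),
      R G H → R (G ⧸ N) (H.map (QuotientGroup.mk' N)))
    (h3 : ∀ (G : Type) [Group G] [Finite G], Fac p G → ∀ H : Subgroup G, R G H → Cls p H)
    {G : Type} [Group G] (h : Cls p G) : Finite G → ∀ H : Subgroup G, R G H → Cls p H := by
  induction h with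
  | triv G =>
    intro _ H _
    exact Cls.triv H
  | ext G N hN hQ ih =>
    intro hfin H hR
    have hA : Cls p (H.subgroupOf N) := ih inferInstance _ (h1 G N H hR)
    have hB : Cls p (H.map (QuotientGroup.mk' N)) := h3 _ hQ _ (h2 G N H hR)
    let f : H →* H.map (QuotientGroup.mk' N) := (QuotientGroup.mk' N).subgroupMap H
    refine hB.extn_aux H f (MonoidHom.subgroupMap_surjective _ _) ?_
    have e : H.subgroupOf N ≃* f.ker :=
      { toFun := fun x => ⟨⟨x.1.1, x.2⟩, by
          rw [MonoidHom.mem_ker]
          apply Subtype.ext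
          exact (QuotientGroup.eq_one_iff (x.1.1)).2 x.1.2⟩
        invFun := fun x => ⟨⟨x.1.1, by
          have := congrArg Subtype.val (MonoidHom.mem_ker.1 x.2)
          exact (QuotientGroup.eq_one_iff (x.1.1)).1 this⟩, x.1.2⟩
        left_inv := fun x => rfl
        right_inv := fun x => rfl
        map_mul' := fun x y => rfl }
    exact hA.congr e

/-- normal subgroups -/
theorem Cls.normal [Fact p.Prime] {G : Type} [Group G] [Finite G] (h : Cls p G) (M : Subgroup G)
    (hM : M.Normal) : Cls p M := by
  refine Cls.sub_ind (fun G _ H => H.Normal) ?_ ?_ ?_ h inferInstance M hM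
  · intro G _ _ N _ H hH
    exact hH.subgroupOf N
  · intro G _ _ N _ H hH
    exact hH.map _ (QuotientGroup.mk'_surjective N)
  · intro G _ _ hF H hH
    rcases hF with hF | hF | ⟨k, i1, i2, i3, hk, ⟨e⟩⟩
    · apply Cls.of_comm
      intro a b
      exact Subtype.ext (hF a b)
    · apply Cls.of_fac
      right; left
      exact cyc_of_inj H.subtype H.subtype_injective hF
    · have hs : IsSimpleGroup PSL(2, k) := psl_simple k hk
      have hX : IsSimpleGroup G := by
        have : Nontrivial G := e.toEquiv.nontrivial
        exact IsSimpleGroup.isSimpleGroup_of_surjective e.symm.toMonoidHom e.symm.surjective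
      rcases hX.eq_bot_or_eq_top_of_normal H hH with h | h
      · subst h
        exact Cls.triv _
      · subst h
        refine Cls.of_fac ?_
        right; right
        exact ⟨k, i1, i2, i3, hk, ⟨Subgroup.topEquiv.trans e⟩⟩

/-- simple groups in the class -/
theorem Cls.simple [Fact p.Prime] {S : Type} [Group S] [Finite S] (h : Cls p S)
    (hS : IsSimpleGroup S) : Fac p S := by
  have key : ∀ (G : Type) [Group G], Cls p G → Finite G → G ≃* S → Fac p S := by
    intro G _ h
    induction h with
    | triv G =>
      intro _ e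
      have : Subsingleton S := e.symm.toEquiv.subsingleton
      exact absurd hS.toNontrivial (not_nontrivial S)
    | ext G N hN hQ ih =>
      intro hfin e
      have hG : IsSimpleGroup G := by
        have : Nontrivial G := e.toEquiv.nontrivial
        exact IsSimpleGroup.isSimpleGroup_of_surjective e.symm.toMonoidHom e.symm.surjective
      rcases hG.eq_bot_or_eq_top_of_normal N inferInstance with h | h
      · subst h
        exact hQ.congr (QuotientGroup.quotientBot.trans e)
      · subst h
        exact ih inferInstance (Subgroup.topEquiv.trans e)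
  exact key S h inferInstance (MulEquiv.refl S)

/-- central kernels -/
theorem Cls.central [Fact p.Prime] {X Y : Type} [Group X] [Group Y] [Finite X] (f : X →* Y)
    (hf : f.ker ≤ Subgroup.center X) (h : Cls p f.range) : Cls p X := by
  refine Cls.extn f.rangeRestrict f.rangeRestrict_surjective ?_ h
  apply Cls.of_comm
  intro a b
  apply Subtype.ext
  have h1 : (a : X) ∈ f.ker := by
    rw [← MonoidHom.ker_rangeRestrict]
    exact a.2
  exact (Subgroup.mem_center_iff.1 (hf h1) (b : X)).symm

end Pool.Agent.Helper42.PL
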